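import Mathlib

/-!
# Graph products of monoids: normal forms
-/

set_option autoImplicit false
set_option linter.unusedSectionVars false

namespace Pool.Agent.Q175.GPM

universe u w

variable {V : Type u} (Γ : SimpleGraph V) (M : V → Type w) [∀ v, Monoid (M v)]

/-- The defining relations of the graph product, on the free monoid on the disjoint union of the
vertex monoids. -/
inductive Rel : FreeMonoid (Σ v, M v) → FreeMonoid (Σ v, M v) → Prop
  | mul (v : V) (a b : M v) :
      Rel (FreeMonoid.of ⟨v, a⟩ * FreeMonoid.of ⟨v, b⟩) (FreeMonoid.of ⟨v, a * b⟩)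
  | one (v : V) : Rel (FreeMonoid.of ⟨v, 1⟩) 1
  | comm (v v' : V) (h : Γ.Adj v v') (a : M v) (b : M v') :
      Rel (FreeMonoid.of ⟨v, a⟩ * FreeMonoid.of ⟨v', b⟩)
        (FreeMonoid.of ⟨v', b⟩ * FreeMonoid.of ⟨v, a⟩)

/-- The graph product of the monoids `M v` over the graph `Γ`. -/
def GProd : Type (max u w) := (conGen (Rel Γ M)).Quotient

instance : Monoid (GProd Γ M) := inferInstanceAs (Monoid (conGen (Rel Γ M)).Quotient)

/-- The quotient homomorphism. -/
def mkHom : FreeMonoid (Σ v, M v) →* GProd Γ M := (conGen (Rel Γ M)).mk'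

theorem mkHom_eq {x y : FreeMonoid (Σ v, M v)} (h : Rel Γ M x y) : mkHom Γ M x = mkHom Γ M y :=
  (Con.eq _).2 (ConGen.Rel.of _ _ h)

theorem mkHom_surjective : Function.Surjective (mkHom Γ M) := (conGen (Rel Γ M)).mk'_surjective

variable {M}

/-- The image of a letter. -/
def inj (v : V) (a : M v) : GProd Γ M := mkHom Γ M (FreeMonoid.of ⟨v, a⟩)

theorem inj_mul (v : V) (a b : M v) : inj Γ v (a * b) = inj Γ v a * inj Γ v b := by
  unfold inj
  rw [← map_mul]
  exact (mkHom_eq Γ M (Rel.mul v a b)).symm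

theorem inj_one (v : V) : inj Γ v (1 : M v) = 1 := by
  unfold inj
  rw [← map_one (mkHom Γ M)]
  exact mkHom_eq Γ M (Rel.one v)

theorem inj_comm {v v' : V} (h : Γ.Adj v v') (a : M v) (b : M v') :
    inj Γ v a * inj Γ v' b = inj Γ v' b * inj Γ v a := by
  unfold inj
  rw [← map_mul, ← map_mul]
  exact mkHom_eq Γ M (Rel.comm v v' h a b)

theorem ind {P : GProd Γ M → Prop} (x : GProd Γ M) (h1 : P 1)
    (h2 : ∀ v (a : M v) x, P x → P (inj Γ v a * x)) : P x := by
  obtain ⟨y, rfl⟩ := mkHom_surjective Γ M x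
  induction y using FreeMonoid.inductionOn' with
  | one => rw [map_one]; exact h1
  | of_mul a y ih => rw [map_mul]; exact h2 a.1 a.2 _ ih

/-- The universal property. -/
def lift {N : Type*} [Monoid N] (f : FreeMonoid (Σ v, M v) →* N)
    (hf : ∀ x y, Rel Γ M x y → f x = f y) : GProd Γ M →* N :=
  (conGen (Rel Γ M)).lift f (Con.conGen_le.2 fun x y h => hf x y h)

theorem lift_mkHom {N : Type*} [Monoid N] (f : FreeMonoid (Σ v, M v) →* N)
    (hf : ∀ x y, Rel Γ M x y → f x = f y) (x : FreeMonoid (Σ v, M v)) :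
    lift Γ f hf (mkHom Γ M x) = f x := rfl

/-! ## Words -/

open Classical in
/-- The letter of the vertex `α` at the front of a word, and the rest. -/
noncomputable def head (α : V) : List (Σ v, M v) → M α × List (Σ v, M v)
  | [] => (1, [])
  | a :: l => if h : a.1 = α then (h ▸ a.2, l) else
      if Γ.Adj a.1 α then ((head α l).1, a :: (head α l).2) else (1, a :: l)

theorem head_nil (α : V) : head Γ α ([] : List (Σ v, M v)) = (1, []) := rfl

theorem head_self (α : V) (x : M α) (l : List (Σ v, M v)) :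
    head Γ α (⟨α, x⟩ :: l) = (x, l) := by
  simp [head]

theorem head_adj {α β : V} (h : Γ.Adj β α) (x : M β) (l : List (Σ v, M v)) :
    head Γ α (⟨β, x⟩ :: l) = ((head Γ α l).1, ⟨β, x⟩ :: (head Γ α l).2) := by
  simp [head, h, h.ne]

theorem head_not {α β : V} (hn : β ≠ α) (h : ¬ Γ.Adj β α) (x : M β) (l : List (Σ v, M v)) :
    head Γ α (⟨β, x⟩ :: l) = (1, ⟨β, x⟩ :: l) := by
  simp [head, h, hn]

/-- Shuffle equivalence. -/
inductive Sh : List (Σ v, M v) → List (Σ v, M v) → Prop
  | nil : Sh [] []
  | cons (a : Σ v, M v) {l l' : List (Σ v, M v)} (h : Sh l l') : Sh (a :: l) (a :: l')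
  | swap (a b : Σ v, M v) (l : List (Σ v, M v)) (h : Γ.Adj a.1 b.1) : Sh (a :: b :: l) (b :: a :: l)
  | trans {l l' l'' : List (Σ v, M v)} (h : Sh l l') (h' : Sh l' l'') : Sh l l''

variable {Γ}

theorem Sh.refl (l : List (Σ v, M v)) : Sh Γ l l := by
  induction l with
  | nil => exact .nil
  | cons a l ih => exact .cons a ih

theorem Sh.symm {l l' : List (Σ v, M v)} (h : Sh Γ l l') : Sh Γ l' l := by
  induction h with
  | nil => exact .nil
  | cons a _ ih => exact .cons a ih
  | swap a b l h => exact .swap b a l h.symm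
  | trans _ _ ih ih' => exact .trans ih' ih

theorem Sh.length {l l' : List (Σ v, M v)} (h : Sh Γ l l') : l.length = l'.length := by
  induction h with
  | nil => rfl
  | cons a _ ih => simp [ih]
  | swap a b l h => simp
  | trans _ _ ih ih' => exact ih.trans ih'

theorem Sh.head {l l' : List (Σ v, M v)} (h : Sh Γ l l') (α : V) :
    (head Γ α l).1 = (head Γ α l').1 ∧ Sh Γ (head Γ α l).2 (head Γ α l').2 := by
  induction h with
  | nil => exact ⟨rfl, .nil⟩
  | @cons a l l' h ih =>
    obtain ⟨v, x⟩ := a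
    by_cases hv : v = α
    · subst hv
      rw [head_self, head_self]
      exact ⟨rfl, h⟩
    · by_cases ha : Γ.Adj v α
      · rw [head_adj Γ ha, head_adj Γ ha]
        exact ⟨ih.1, .cons _ ih.2⟩
      · rw [head_not Γ hv ha, head_not Γ hv ha]
        exact ⟨rfl, .cons _ h⟩
  | swap a b l h =>
    obtain ⟨v, x⟩ := a
    obtain ⟨v', x'⟩ := b
    change Γ.Adj v v' at h
    by_cases hv : v = α
    · subst hv
      rw [head_self, head_adj Γ h.symm, head_self]
      exact ⟨rfl, .refl _⟩
    · by_cases hv' : v' = α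
      · subst hv'
        rw [head_self, head_adj Γ h, head_self]
        exact ⟨rfl, .refl _⟩
      · by_cases ha : Γ.Adj v α
        · by_cases ha' : Γ.Adj v' α
          · rw [head_adj Γ ha, head_adj Γ ha', head_adj Γ ha', head_adj Γ ha]
            exact ⟨rfl, .swap _ _ _ h⟩
          · rw [head_adj Γ ha, head_not Γ hv' ha', head_not Γ hv' ha']
            exact ⟨rfl, .swap _ _ _ h⟩
        · by_cases ha' : Γ.Adj v' α
          · rw [head_not Γ hv ha, head_adj Γ ha', head_not Γ hv ha]
            exact ⟨rfl, .swap _ _ _ h⟩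
          · rw [head_not Γ hv ha, head_not Γ hv' ha']
            exact ⟨rfl, .swap _ _ _ h⟩
  | trans _ _ ih ih' => exact ⟨ih.1.trans ih'.1, ih.2.trans ih'.2⟩

variable (Γ)

/-- Reduced words. -/
def Red : List (Σ v, M v) → Prop
  | [] => True
  | a :: l => a.2 ≠ 1 ∧ (head Γ a.1 l).1 = 1 ∧ Red l

variable {Γ}

theorem Red.sh {l l' : List (Σ v, M v)} (h : Sh Γ l l') : Red Γ l → Red Γ l' := by
  induction h with
  | nil => exact id
  | @cons a l l' h ih =>
    rintro ⟨h1, h2, h3⟩
    exact ⟨h1, by rw [← (h.head a.1).1]; exact h2, ih h3⟩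
  | swap a b l h =>
    obtain ⟨v, x⟩ := a
    obtain ⟨v', x'⟩ := b
    change Γ.Adj v v' at h
    rintro ⟨h1, h2, h3, h4, h5⟩
    change (GPM.head Γ v (⟨v', x'⟩ :: l)).1 = 1 at h2
    rw [head_adj Γ h.symm] at h2
    refine ⟨h3, ?_, h1, h2, h5⟩
    change (GPM.head Γ v' (⟨v, x⟩ :: l)).1 = 1
    rw [head_adj Γ h]
    exact h4
  | trans _ _ ih ih' => exact fun h => ih' (ih h)

open Classical in
/-- Put a letter in front unless it is trivial. -/
noncomputable def cons' (α : V) (x : M α) (l : List (Σ v, M v)) : List (Σ v, M v) :=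
  if x = 1 then l else ⟨α, x⟩ :: l

theorem cons'_one (α : V) (l : List (Σ v, M v)) : cons' α (1 : M α) l = l := by simp [cons']

theorem cons'_ne {α : V} {x : M α} (h : x ≠ 1) (l : List (Σ v, M v)) :
    cons' α x l = ⟨α, x⟩ :: l := by simp [cons', h]

theorem Sh.cons' {l l' : List (Σ v, M v)} (h : Sh Γ l l') (α : V) (x : M α) :
    Sh Γ (cons' α x l) (cons' α x l') := by
  by_cases hx : x = 1
  · subst hx; rw [cons'_one, cons'_one]; exact h
  · rw [cons'_ne hx, cons'_ne hx]; exact .cons _ h

theorem sh_head {l : List (Σ v, M v)} (α : V) (h : Red Γ l) :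
    Sh Γ l (cons' α (head Γ α l).1 (head Γ α l).2) := by
  induction l with
  | nil => rw [head_nil, cons'_one]; exact .nil
  | cons a l ih =>
    obtain ⟨v, x⟩ := a
    obtain ⟨h1, h2, h3⟩ := h
    by_cases hv : v = α
    · subst hv
      rw [head_self, cons'_ne h1]
      exact .refl _
    · by_cases ha : Γ.Adj v α
      · rw [head_adj Γ ha]
        refine (Sh.cons ⟨v, x⟩ (ih h3)).trans ?_
        simp only
        by_cases hx : (head Γ α l).1 = 1
        · rw [hx, cons'_one, cons'_one]; exact .refl _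
        · rw [cons'_ne hx, cons'_ne hx]; exact .swap _ _ _ ha
      · rw [head_not Γ hv ha, cons'_one]
        exact .refl _

theorem head_eq {l : List (Σ v, M v)} {α : V} (h : Red Γ l) (h1 : (head Γ α l).1 = 1) :
    (head Γ α l).2 = l := by
  induction l with
  | nil => rfl
  | cons a l ih =>
    obtain ⟨v, x⟩ := a
    obtain ⟨h2, h3, h4⟩ := h
    by_cases hv : v = α
    · subst hv
      rw [head_self] at h1
      exact absurd h1 h2
    · by_cases ha : Γ.Adj v α
      · rw [head_adj Γ ha] at h1 ⊢
        rw [ih h4 h1]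
      · rw [head_not Γ hv ha]

theorem red_head {l : List (Σ v, M v)} (α : V) (h : Red Γ l) :
    Red Γ (head Γ α l).2 ∧ head Γ α (head Γ α l).2 = (1, (head Γ α l).2) := by
  by_cases hx : (head Γ α l).1 = 1
  · have := head_eq h hx
    rw [this]
    refine ⟨h, ?_⟩
    ext1
    · exact hx
    · exact this
  · have h2 := Red.sh (sh_head α h) h
    rw [cons'_ne hx] at h2
    obtain ⟨h3, h4, h5⟩ := h2
    refine ⟨h5, ?_⟩
    ext1
    · exact h4
    · exact head_eq h5 h4

variable (Γ) in
/-- The action of a letter on words. -/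
noncomputable def act (α : V) (x : M α) (l : List (Σ v, M v)) : List (Σ v, M v) :=
  cons' α (x * (head Γ α l).1) (head Γ α l).2

theorem red_cons' {α : V} {x : M α} {l : List (Σ v, M v)} (h : Red Γ l)
    (h1 : (head Γ α l).1 = 1) : Red Γ (cons' α x l) := by
  by_cases hx : x = 1
  · subst hx; rw [cons'_one]; exact h
  · rw [cons'_ne hx]; exact ⟨hx, h1, h⟩

theorem red_act {l : List (Σ v, M v)} (α : V) (x : M α) (h : Red Γ l) : Red Γ (act Γ α x l) := by
  obtain ⟨h1, h2⟩ := red_head α h
  exact red_cons' h1 (by rw [h2])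

theorem Sh.act {l l' : List (Σ v, M v)} (h : Sh Γ l l') (α : V) (x : M α) :
    Sh Γ (act Γ α x l) (act Γ α x l') := by
  unfold GPM.act
  obtain ⟨h1, h2⟩ := h.head α
  rw [h1]
  exact h2.cons' _ _

theorem head_cons'_self {α : V} {x : M α} {l : List (Σ v, M v)} (h : head Γ α l = (1, l)) :
    head Γ α (cons' α x l) = (x, l) := by
  by_cases hx : x = 1
  · subst hx; rw [cons'_one]; exact h
  · rw [cons'_ne hx, head_self]

theorem head_cons'_adj {α β : V} (h : Γ.Adj β α) (x : M β) (l : List (Σ v, M v)) :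
    head Γ α (cons' β x l) = ((head Γ α l).1, cons' β x (head Γ α l).2) := by
  by_cases hx : x = 1
  · subst hx; rw [cons'_one, cons'_one]
  · rw [cons'_ne hx, cons'_ne hx, head_adj Γ h]

theorem head_act {l : List (Σ v, M v)} (α : V) (x : M α) (h : Red Γ l) :
    head Γ α (act Γ α x l) = (x * (head Γ α l).1, (head Γ α l).2) :=
  head_cons'_self (red_head α h).2

theorem act_act {l : List (Σ v, M v)} (α : V) (x y : M α) (h : Red Γ l) :
    act Γ α x (act Γ α y l) = act Γ α (x * y) l := by
  have := head_act α y h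
  unfold act at this ⊢
  rw [this]
  simp only [mul_assoc]

theorem act_one {l : List (Σ v, M v)} (α : V) (h : Red Γ l) : Sh Γ (act Γ α 1 l) l := by
  unfold act
  rw [one_mul]
  exact (sh_head α h).symm

theorem act_comm {l : List (Σ v, M v)} {α β : V} (hab : Γ.Adj α β) (x : M α) (y : M β)
    (h : Red Γ l) : Sh Γ (act Γ α x (act Γ β y l)) (act Γ β y (act Γ α x l)) := by
  set m := (head Γ α l).2 with hm
  set hh := (head Γ α l).1 with hhh
  obtain ⟨h1, h2⟩ := red_head α h
  have h3 : Sh Γ l (cons' α hh m) := sh_head α h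
  set n := (head Γ β m).2 with hn
  set k := (head Γ β m).1 with hk
  obtain ⟨h4, h5⟩ := red_head β h1
  have h6 : Sh Γ m (cons' β k n) := sh_head β h1
  have h7 : Sh Γ l (cons' α hh (cons' β k n)) := h3.trans (h6.cons' _ _)
  have h8 : head Γ α n = (1, n) := by
    have h9 : (head Γ α n).1 = 1 := by
      have h10 := (h6.head α).1
      rw [head_cons'_adj hab.symm] at h10
      rw [h2] at h10
      exact h10.symm
    ext1
    · exact h9
    · exact head_eq h4 h9
  have e1 : act Γ β y (cons' α hh (cons' β k n)) = cons' β (y * k) (cons' α hh n) := by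
    unfold act
    rw [head_cons'_adj hab, head_cons'_self h5]
  have e2 : act Γ α x (cons' β (y * k) (cons' α hh n)) = cons' α (x * hh) (cons' β (y * k) n) := by
    unfold act
    rw [head_cons'_adj hab.symm, head_cons'_self h8]
  have e3 : act Γ α x (cons' α hh (cons' β k n)) = cons' α (x * hh) (cons' β k n) := by
    unfold act
    rw [head_cons'_self (α := α)]
    rw [head_cons'_adj hab.symm, h8]
  have e4 : act Γ β y (cons' α (x * hh) (cons' β k n)) = cons' β (y * k) (cons' α (x * hh) n) := by
    unfold act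
    rw [head_cons'_adj hab, head_cons'_self h5]
  have f1 : Sh Γ (act Γ α x (act Γ β y l)) (cons' α (x * hh) (cons' β (y * k) n)) := by
    rw [← e2, ← e1]
    exact (h7.act β y).act α x
  have f2 : Sh Γ (act Γ β y (act Γ α x l)) (cons' β (y * k) (cons' α (x * hh) n)) := by
    rw [← e4, ← e3]
    exact (h7.act α x).act β y
  refine f1.trans (.trans ?_ f2.symm)
  by_cases g1 : x * hh = 1
  · rw [g1, cons'_one, cons'_one]; exact .refl _
  · by_cases g2 : y * k = 1
    · rw [g2, cons'_one, cons'_one]; exact .refl _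
    · rw [cons'_ne g1, cons'_ne g2, cons'_ne g2, cons'_ne g1]
      exact .swap _ _ _ hab

/-! ## The representation on reduced words -/

variable (Γ M) in
/-- Reduced words. -/
def RW : Type (max u w) := {l : List (Σ v, M v) // Red Γ l}

variable (Γ M) in
instance rwSetoid : Setoid (RW Γ M) where
  r l l' := Sh Γ l.1 l'.1
  iseqv := ⟨fun _ => .refl _, fun h => h.symm, fun h h' => h.trans h'⟩

variable (Γ M) in
/-- Reduced words up to shuffles. -/
def Q : Type (max u w) := Quotient (rwSetoid Γ M)

/-- The action on shuffle classes. -/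
noncomputable def actQ (α : V) (x : M α) : Q Γ M → Q Γ M :=
  Quotient.map (fun l => ⟨act Γ α x l.1, red_act α x l.2⟩) fun _ _ h => Sh.act h α x

variable (Γ M) in
/-- The action of words. -/
noncomputable def repW : FreeMonoid (Σ v, M v) →* Function.End (Q Γ M) :=
  FreeMonoid.lift fun a => (actQ a.1 a.2 : Q Γ M → Q Γ M)

theorem repW_rel (x y : FreeMonoid (Σ v, M v)) (h : Rel Γ M x y) : repW Γ M x = repW Γ M y := by
  induction h with
  | mul v a b =>
    funext q
    rw [map_mul]
    change (repW Γ M (FreeMonoid.of ⟨v, a⟩)) ((repW Γ M (FreeMonoid.of ⟨v, b⟩)) q) =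
      (repW Γ M (FreeMonoid.of ⟨v, a * b⟩)) q
    simp only [repW]
    induction q using Quotient.inductionOn with
    | h l =>
      refine Quotient.sound ?_
      change Sh Γ (act Γ v a (act Γ v b l.1)) (act Γ v (a * b) l.1)
      rw [act_act v a b l.2]
      exact .refl _
  | one v =>
    funext q
    rw [map_one]
    change (repW Γ M (FreeMonoid.of ⟨v, 1⟩)) q = q
    simp only [repW]
    induction q using Quotient.inductionOn with
    | h l => exact Quotient.sound (act_one v l.2)
  | comm v v' h a b =>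
    funext q
    rw [map_mul, map_mul]
    change (repW Γ M (FreeMonoid.of ⟨v, a⟩)) ((repW Γ M (FreeMonoid.of ⟨v', b⟩)) q) =
      (repW Γ M (FreeMonoid.of ⟨v', b⟩)) ((repW Γ M (FreeMonoid.of ⟨v, a⟩)) q)
    simp only [repW]
    induction q using Quotient.inductionOn with
    | h l => exact Quotient.sound (act_comm h a b l.2)

variable (Γ M) in
/-- The action of the graph product. -/
noncomputable def rep : GProd Γ M →* Function.End (Q Γ M) := lift Γ (repW Γ M) repW_rel

variable (Γ M) in
/-- The class of the empty word. -/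
def nilQ : Q Γ M := Quotient.mk _ ⟨[], trivial⟩

/-- The normal form. -/
noncomputable def nf (g : GProd Γ M) : Q Γ M := rep Γ M g (nilQ Γ M)

theorem nf_inj (α : V) (x : M α) (g : GProd Γ M) : nf (inj Γ α x * g) = actQ α x (nf g) := by
  unfold nf
  rw [map_mul]
  rfl

/-- A reduced word of an element. -/
noncomputable def word (g : GProd Γ M) : List (Σ v, M v) := (Quotient.out (nf g)).1

theorem red_word (g : GProd Γ M) : Red Γ (word g) := (Quotient.out (nf g)).2

theorem word_sh {g : GProd Γ M} {l : List (Σ v, M v)} (hl : Red Γ l)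
    (h : nf g = Quotient.mk _ ⟨l, hl⟩) : Sh Γ (word g) l := by
  exact Quotient.exact ((Quotient.out_eq (nf g)).trans h)

theorem nf_word (g : GProd Γ M) : nf g = Quotient.mk _ ⟨word g, red_word g⟩ :=
  (Quotient.out_eq (nf g)).symm

theorem word_inj (α : V) (x : M α) (g : GProd Γ M) :
    Sh Γ (word (inj Γ α x * g)) (act Γ α x (word g)) := by
  refine word_sh (red_act α x (red_word g)) ?_
  rw [nf_inj, nf_word g]
  rfl

theorem word_one : word (1 : GProd Γ M) = [] := by
  have h1 : Sh Γ (word (1 : GProd Γ M)) [] := by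
    refine word_sh trivial ?_
    unfold nf
    rw [map_one]
    rfl
  exact List.length_eq_zero_iff.1 h1.length

variable (Γ) in
/-- The product of a word. -/
def prodW (l : List (Σ v, M v)) : GProd Γ M := (l.map fun a => inj Γ a.1 a.2).prod

theorem prodW_nil : prodW Γ ([] : List (Σ v, M v)) = 1 := rfl

theorem prodW_cons (a : Σ v, M v) (l : List (Σ v, M v)) :
    prodW Γ (a :: l) = inj Γ a.1 a.2 * prodW Γ l := by simp [prodW]

theorem prodW_cons' (α : V) (x : M α) (l : List (Σ v, M v)) :
    prodW Γ (cons' α x l) = inj Γ α x * prodW Γ l := by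
  by_cases hx : x = 1
  · subst hx; rw [cons'_one, inj_one, one_mul]
  · rw [cons'_ne hx, prodW_cons]

theorem Sh.prodW {l l' : List (Σ v, M v)} (h : Sh Γ l l') : prodW Γ l = prodW Γ l' := by
  induction h with
  | nil => rfl
  | cons a _ ih => rw [prodW_cons, prodW_cons, ih]
  | swap a b l h =>
    rw [prodW_cons, prodW_cons, prodW_cons, prodW_cons, ← mul_assoc, ← mul_assoc,
      inj_comm Γ h]
  | trans _ _ ih ih' => exact ih.trans ih'

theorem prodW_act (α : V) (x : M α) {l : List (Σ v, M v)} (h : Red Γ l) :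
    prodW Γ (act Γ α x l) = inj Γ α x * prodW Γ l := by
  unfold act
  rw [prodW_cons', inj_mul, mul_assoc, ← prodW_cons', ← (sh_head α h).prodW]

theorem prodW_word (g : GProd Γ M) : prodW Γ (word g) = g := by
  refine ind Γ (P := fun g => prodW Γ (word g) = g) g (by rw [word_one, prodW_nil]) ?_
  intro α x g hg
  rw [(word_inj α x g).prodW, prodW_act α x (red_word g), hg]

theorem act_red {a : Σ v, M v} {l : List (Σ v, M v)} (h : Red Γ (a :: l)) :
    act Γ a.1 a.2 l = a :: l := by
  obtain ⟨h1, h2, h3⟩ := h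
  unfold act
  rw [h2, mul_one, head_eq h3 h2, cons'_ne h1]

theorem word_prodW {l : List (Σ v, M v)} (h : Red Γ l) : Sh Γ (word (prodW Γ l)) l := by
  induction l with
  | nil => rw [prodW_nil, word_one]; exact .nil
  | cons a l ih =>
    rw [prodW_cons]
    refine (word_inj a.1 a.2 _).trans ?_
    conv_rhs => rw [← act_red h]
    exact (ih h.2.2).act _ _

/-! ## Heads, tails and lengths -/

/-- The letter of the vertex `α` in front. -/
noncomputable def hd (α : V) (g : GProd Γ M) : M α := (head Γ α (word g)).1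

/-- What is left after removing the letter of the vertex `α` in front. -/
noncomputable def tl (α : V) (g : GProd Γ M) : GProd Γ M := prodW Γ (head Γ α (word g)).2

/-- The length. -/
noncomputable def len (g : GProd Γ M) : ℕ := (word g).length

theorem hd_tl (α : V) (g : GProd Γ M) : inj Γ α (hd α g) * tl α g = g := by
  unfold hd tl
  rw [← prodW_cons', ← (sh_head α (red_word g)).prodW, prodW_word]

theorem hd_inj (α : V) (x : M α) (g : GProd Γ M) : hd α (inj Γ α x * g) = x * hd α g := by
  unfold hd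
  rw [((word_inj α x g).head α).1, head_act α x (red_word g)]

theorem tl_inj (α : V) (x : M α) (g : GProd Γ M) : tl α (inj Γ α x * g) = tl α g := by
  unfold tl
  rw [((word_inj α x g).head α).2.prodW, head_act α x (red_word g)]

theorem hd_adj {α β : V} (h : Γ.Adj α β) (x : M α) (g : GProd Γ M) :
    hd β (inj Γ α x * g) = hd β g := by
  unfold hd
  rw [((word_inj α x g).head β).1]
  unfold act
  rw [head_cons'_adj h]
  rw [((sh_head α (red_word g)).head β).1, head_cons'_adj h]

theorem hd_not {α β : V} (hn : α ≠ β) (h : ¬ Γ.Adj α β) {x : M α} {g : GProd Γ M}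
    (hx : x * hd α g ≠ 1) : hd β (inj Γ α x * g) = 1 := by
  unfold hd at hx ⊢
  rw [((word_inj α x g).head β).1]
  unfold act
  rw [cons'_ne hx, head_not Γ hn h]

theorem hd_one (α : V) : hd α (1 : GProd Γ M) = 1 := by
  unfold hd
  rw [word_one, head_nil]

theorem len_one : len (1 : GProd Γ M) = 0 := by
  unfold len
  rw [word_one]
  rfl

theorem len_inj {α : V} {x : M α} {g : GProd Γ M} (hx : x ≠ 1) (h : hd α g = 1) :
    len (inj Γ α x * g) = len g + 1 := by
  unfold len
  unfold hd at h
  rw [(word_inj α x g).length]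
  unfold act
  rw [h, mul_one, cons'_ne hx, head_eq (red_word g) h]
  rfl

theorem exists_hd {g : GProd Γ M} (hg : g ≠ 1) : ∃ α, hd α g ≠ 1 := by
  cases hw : word g with
  | nil =>
    exfalso
    apply hg
    rw [← prodW_word g, hw, prodW_nil]
  | cons a l =>
    refine ⟨a.1, ?_⟩
    have h := red_word g
    rw [hw] at h
    unfold hd
    rw [hw]
    obtain ⟨v, x⟩ := a
    rw [head_self]
    exact h.1

theorem tl_of_hd {α : V} {g : GProd Γ M} (h : hd α g = 1) : tl α g = g := by
  have := hd_tl α g
  rw [h, inj_one, one_mul] at this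
  exact this

theorem hd_of_tl (α : V) (g : GProd Γ M) : hd α (tl α g) = 1 := by
  unfold hd tl
  obtain ⟨h1, h2⟩ := red_head α (red_word g)
  rw [((word_prodW h1).head α).1, h2]

end Pool.Agent.Q175.GPM
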