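import Pool.Agent.Q175.GPM.Basic

/-!
# Graph products of monoids: idempotents and the relation `R` tilde
-/

set_option autoImplicit false
set_option linter.unusedSectionVars false

namespace Pool.Agent.Q175.GPM

universe u w

variable {V : Type u} {Γ : SimpleGraph V} {M : V → Type w} [∀ v, Monoid (M v)]

theorem hd_single (α : V) (x : M α) : hd α (inj Γ α x) = x := by
  have := hd_inj (Γ := Γ) α x 1
  rwa [mul_one, hd_one, mul_one] at this

theorem len_eq (α : V) (g : GProd Γ M) (h : hd α g ≠ 1) : len g = len (tl α g) + 1 := by
  have := len_inj (Γ := Γ) h (hd_of_tl α g)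
  rwa [hd_tl] at this

theorem len_tl_le (α : V) (g : GProd Γ M) : len (tl α g) ≤ len g := by
  by_cases h : hd α g = 1
  · rw [tl_of_hd h]
  · rw [len_eq α g h]; omega

theorem len_inj_le (α : V) (x : M α) (g : GProd Γ M) :
    len (inj Γ α x * g) ≤ len (tl α g) + 1 := by
  by_cases h : x * hd α g = 1
  · have h1 : inj Γ α x * g = tl α g := by
      conv_lhs => rw [← hd_tl α g]
      rw [← mul_assoc, ← inj_mul, h, inj_one, one_mul]
    rw [h1]; omega
  · have h1 : inj Γ α x * g = inj Γ α (x * hd α g) * tl α g := by
      conv_lhs => rw [← hd_tl α g]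
      rw [← mul_assoc, ← inj_mul]
    rw [h1, len_inj h (hd_of_tl α g)]

theorem len_inj_le' (α : V) (x : M α) (g : GProd Γ M) :
    len (inj Γ α x * g) ≤ len g + 1 :=
  (len_inj_le α x g).trans (by have := len_tl_le α g; omega)

/-- Induction on the length. -/
theorem ind_len {P : GProd Γ M → Prop} (g : GProd Γ M) (h1 : P 1)
    (h2 : ∀ (v : V) (x : M v) (g : GProd Γ M), x ≠ 1 → hd v g = 1 → P g → P (inj Γ v x * g)) :
    P g := by
  have key : ∀ (n : ℕ) (g : GProd Γ M), len g = n → P g := by
    intro n
    induction n with
    | zero =>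
      intro g hg
      by_cases h : g = 1
      · rw [h]; exact h1
      · obtain ⟨α, hα⟩ := exists_hd h
        have := len_eq α g hα
        omega
    | succ n ih =>
      intro g hg
      by_cases h : g = 1
      · rw [h]; exact h1
      · obtain ⟨α, hα⟩ := exists_hd h
        have h3 := len_eq α g hα
        rw [← hd_tl α g]
        exact h2 α _ _ hα (hd_of_tl α g) (ih _ (by omega))
  exact key _ g rfl

theorem len_mul (a b : GProd Γ M) : len (a * b) ≤ len a + len b := by
  refine ind_len (P := fun a => len (a * b) ≤ len a + len b) a (by rw [one_mul]; omega) ?_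
  intro v x g hx hg ih
  rw [mul_assoc, len_inj hx hg]
  have := len_inj_le' v x (g * b)
  omega

theorem len_single_le (α : V) (x : M α) : len (inj Γ α x) ≤ 1 := by
  have := len_inj_le' (Γ := Γ) α x 1
  rwa [mul_one, len_one] at this

/-- Products of letters adjacent to `β`. -/
inductive Lk (β : V) : GProd Γ M → Prop
  | one : Lk β 1
  | mul (γ : V) (h : Γ.Adj γ β) (x : M γ) (g : GProd Γ M) (hg : Lk β g) : Lk β (inj Γ γ x * g)

theorem Lk.comm {β : V} {g : GProd Γ M} (h : Lk β g) (x : M β) :
    inj Γ β x * g = g * inj Γ β x := by
  induction h with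
  | one => rw [mul_one, one_mul]
  | mul γ h y g _ ih => rw [← mul_assoc, ← inj_comm Γ h, mul_assoc, ih, mul_assoc]

theorem Lk.hd {β : V} {g : GProd Γ M} (h : Lk β g) (a : GProd Γ M) : hd β (g * a) = hd β a := by
  induction h with
  | one => rw [one_mul]
  | mul γ h y g _ ih => rw [mul_assoc, hd_adj h, ih]

theorem Lk.hd_self {β : V} {g : GProd Γ M} (h : Lk β g) : GPM.hd β g = 1 := by
  have := h.hd 1
  rwa [mul_one, hd_one] at this

/-- No cancellation in a product. -/
def NC (c a : GProd Γ M) : Prop :=
  ∀ (β : V) (x : M β) (c' : GProd Γ M), c = c' * inj Γ β x → len c' < len c → x * hd β a ≠ 1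

theorem NC.of_inj {γ : V} {x : M γ} {c a : GProd Γ M} (hx : x ≠ 1) (hc : hd γ c = 1)
    (h : NC (inj Γ γ x * c) a) : NC c a := by
  intro β y c' h1 h2
  refine h β y (inj Γ γ x * c') (by rw [h1, mul_assoc]) ?_
  rw [len_inj hx hc]
  have := len_inj_le' γ x c'
  omega

/-- The heads of a product without cancellation. -/
theorem dich (c a : GProd Γ M) (h : NC c a) (β : V) :
    hd β (c * a) = hd β c ∨ ∃ (s : M β) (d : GProd Γ M), Lk β d ∧ c = inj Γ β s * d := by
  revert β
  refine ind_len (P := fun c => NC c a → ∀ β, hd β (c * a) = hd β c ∨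
    ∃ (s : M β) (d : GProd Γ M), Lk β d ∧ c = inj Γ β s * d) c ?_ ?_ h
  · intro _ β
    exact Or.inr ⟨1, 1, .one, by rw [inj_one, one_mul]⟩
  · intro γ x c hx hc ih hnc β
    have ih := ih (hnc.of_inj hx hc)
    by_cases hγ : γ = β
    · subst hγ
      rcases ih γ with h1 | ⟨s, d, hd, h1⟩
      · left
        rw [mul_assoc, hd_inj, hd_inj, h1]
      · right
        exact ⟨x * s, d, hd, by rw [h1, inj_mul, mul_assoc]⟩
    · by_cases ha : Γ.Adj γ β
      · rcases ih β with h1 | ⟨s, d, hd, h1⟩
        · left
          rw [mul_assoc, hd_adj ha, hd_adj ha, h1]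
        · right
          refine ⟨s, inj Γ γ x * d, .mul γ ha x d hd, ?_⟩
          rw [h1, ← mul_assoc, ← mul_assoc, inj_comm Γ ha]
      · left
        have h2 : hd β (inj Γ γ x * c) = 1 := hd_not hγ ha (by rwa [hc, mul_one])
        rw [h2, mul_assoc]
        apply hd_not hγ ha
        rcases ih γ with h1 | ⟨s, d, hd, h1⟩
        · rwa [h1, hc, mul_one]
        · have hs : s = 1 := by
            rw [h1, hd_inj, hd.hd_self, mul_one] at hc
            exact hc
          subst hs
          rw [inj_one, one_mul] at h1
          subst h1
          rw [hd.hd]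
          refine hnc γ x c (hd.comm x) ?_
          rw [len_inj hx hc]
          omega

theorem len_le_of_ne {γ : V} {x : M γ} {g : GProd Γ M} (h : x * hd γ g ≠ 1) :
    len g ≤ len (inj Γ γ x * g) := by
  have h1 : inj Γ γ x * g = inj Γ γ (x * hd γ g) * tl γ g := by
    conv_lhs => rw [← hd_tl γ g]
    rw [← mul_assoc, ← inj_mul]
  rw [h1, len_inj h (hd_of_tl γ g)]
  by_cases h2 : hd γ g = 1
  · rw [tl_of_hd h2]; omega
  · rw [len_eq γ g h2]

/-- A product without cancellation is at least as long as the second factor. -/
theorem len_nc (c a : GProd Γ M) (h : NC c a) : len a ≤ len (c * a) := by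
  refine ind_len (P := fun c => NC c a → len a ≤ len (c * a)) c ?_ ?_ h
  · intro _; rw [one_mul]
  · intro γ x c hx hc ih hnc
    have h0 := hnc.of_inj hx hc
    have ih := ih h0
    rw [mul_assoc]
    refine ih.trans (len_le_of_ne ?_)
    rcases dich c a h0 γ with h1 | ⟨s, d, hd, h1⟩
    · rwa [h1, hc, mul_one]
    · have hs : s = 1 := by
        rw [h1, hd_inj, hd.hd_self, mul_one] at hc
        exact hc
      subst hs
      rw [inj_one, one_mul] at h1
      subst h1
      rw [hd.hd]
      refine hnc γ x c (hd.comm x) ?_
      rw [len_inj hx hc]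
      omega

/-- If a product without cancellation is as long as the second factor, the first one is a clique. -/
theorem clique (c a : GProd Γ M) (h : NC c a) (hl : len (c * a) ≤ len a) (γ : V)
    (hγ : hd γ c ≠ 1) : Lk γ (tl γ c) := by
  set x := hd γ c with hx
  set c₁ := tl γ c with hc₁
  have hc : c = inj Γ γ x * c₁ := (hd_tl γ c).symm
  have h1 : hd γ c₁ = 1 := hd_of_tl γ c
  rw [hc] at h hl
  have h0 := h.of_inj hγ h1
  rcases dich c₁ a h0 γ with h2 | ⟨s, d, hd, h2⟩
  · exfalso
    rw [h1] at h2
    rw [mul_assoc, len_inj hγ h2] at hl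
    have := len_nc c₁ a h0
    omega
  · have hs : s = 1 := by
      rw [h2, hd_inj, hd.hd_self, mul_one] at h1
      exact h1
    subst hs
    rw [inj_one, one_mul] at h2
    rw [h2]
    exact hd

/-- The structure of idempotents. -/
inductive Nest : GProd Γ M → Prop
  | one : Nest 1
  | letter {β : V} {y : M β} {c : GProd Γ M} (hy : y * y = y) (hc : Nest c) (hcc : c * c = c)
      (h : inj Γ β y * c = c * inj Γ β y) : Nest (inj Γ β y * c)
  | conj {β : V} {x y : M β} {c : GProd Γ M} (hxy : x * y = 1) (hc : Nest c) (hcc : c * c = c) :
      Nest (inj Γ β y * c * inj Γ β x)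

theorem nest (e : GProd Γ M) (he : e * e = e) : Nest e := by
  have key : ∀ (n : ℕ) (e : GProd Γ M), len e = n → e * e = e → Nest e := by
    intro n
    induction n using Nat.strong_induction_on with
    | _ n ih =>
    intro e hn he
    by_cases h1 : e = 1
    · rw [h1]; exact .one
    by_cases hnc : NC e e
    · obtain ⟨β, hβ⟩ := exists_hd h1
      have h2 := clique e e hnc (by rw [he]) β hβ
      set y := hd β e with hy
      set c := tl β e with hc
      have h3 : e = inj Γ β y * c := (hd_tl β e).symm
      have h4 : e * e = inj Γ β (y * y) * (c * c) := by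
        rw [h3, inj_mul, mul_assoc, ← mul_assoc c, ← h2.comm, mul_assoc, mul_assoc]
      have h5 : hd β (c * c) = 1 := by rw [h2.hd, h2.hd_self]
      have h6 : y * y = y := by
        have := congrArg (hd β) h4
        rw [he, hd_inj, h5, mul_one] at this
        exact this.symm
      have h7 : c * c = c := by
        have := congrArg (tl β) h4
        rw [he, tl_inj, tl_of_hd h5] at this
        exact this.symm
      rw [h3]
      refine .letter h6 (ih (len c) ?_ c rfl h7) h7 (h2.comm y)
      rw [← hn, len_eq β e hβ]
      exact Nat.lt_succ_self _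
    · unfold NC at hnc
      push Not at hnc
      obtain ⟨β, x, e', h2, h3, h4⟩ := hnc
      set y := hd β e with hy
      have h5 : inj Γ β x * inj Γ β y = (1 : GProd Γ M) := by rw [← inj_mul, h4, inj_one]
      have h6 : inj Γ β y * inj Γ β x * e = e := by
        conv_lhs => rw [← hd_tl β e]
        rw [← hy, mul_assoc, ← mul_assoc (inj Γ β x), h5, one_mul, hy, hd_tl]
      have h7 : e * inj Γ β y * inj Γ β x = e := by
        conv_lhs => rw [h2]
        rw [mul_assoc e', h5, mul_one, ← h2]
      set c := inj Γ β x * e * inj Γ β y with hc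
      have h8 : c * c = c := by
        rw [hc]
        calc inj Γ β x * e * inj Γ β y * (inj Γ β x * e * inj Γ β y)
            = inj Γ β x * (e * inj Γ β y * inj Γ β x) * e * inj Γ β y := by
              simp only [mul_assoc]
          _ = inj Γ β x * e * inj Γ β y := by rw [h7, mul_assoc _ e e, he]
      have h9 : e = inj Γ β y * c * inj Γ β x := by
        rw [hc]
        calc e = inj Γ β y * inj Γ β x * (e * inj Γ β y * inj Γ β x) := by rw [h7, h6]
          _ = _ := by simp only [mul_assoc]
      have h10 : c = inj Γ β x * e' := by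
        rw [hc]
        conv_lhs => rw [h2]
        rw [mul_assoc, mul_assoc, h5, mul_one]
      have h11 : len c < len e := by
        rw [h10]
        by_cases h12 : hd β e' = 1
        · exfalso
          have h13 : NC e' (inj Γ β x) := by
            intro γ z c' h14 h15
            by_cases hγ : γ = β
            · subst hγ
              rw [hd_single]
              intro h16
              have h17 : e = c' := by
                rw [h2, h14, mul_assoc, ← inj_mul, h16, inj_one, mul_one]
              rw [h17] at h3
              omega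
            · have h16 : hd γ (inj Γ β x : GProd Γ M) = 1 := by
                by_cases hx1 : x = 1
                · rw [hx1, inj_one, hd_one]
                · by_cases ha : Γ.Adj β γ
                  · have := hd_adj (M := M) ha x (1 : GProd Γ M)
                    rwa [mul_one, hd_one] at this
                  · have := hd_not (M := M) (Ne.symm hγ) ha (x := x) (g := (1 : GProd Γ M))
                      (by rwa [hd_one, mul_one])
                    rwa [mul_one] at this
              rw [h16, mul_one]
              intro hz
              rw [hz, inj_one, mul_one] at h14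
              rw [h14] at h15
              omega
          have hy1 : y ≠ 1 := by
            intro hy1
            rw [hy1, mul_one] at h4
            rw [h4, inj_one, mul_one] at h2
            rw [h2] at h3
            omega
          rcases dich e' _ h13 β with h14 | ⟨s, d, hd, h14⟩
          · rw [← h2, h12] at h14
            exact hy1 h14
          · have hs : s = 1 := by
              rw [h14, hd_inj, hd.hd_self, mul_one] at h12
              exact h12
            subst hs
            rw [inj_one, one_mul] at h14
            subst h14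
            have h15 : e = inj Γ β x * e' := by rw [h2, hd.comm]
            have h16 : y = x := by rw [hy, h15, hd_inj, hd.hd_self, mul_one]
            have h17 : GPM.hd β (e * e) = 1 := by
              conv_lhs => rw [h15]
              rw [mul_assoc, hd_inj, hd.hd, hd_inj, hd.hd_self, mul_one]
              rw [h16] at h4
              exact h4
            rw [he] at h17
            exact hy1 h17
        · have h13 := len_inj_le β x e'
          have h14 := len_eq β e' h12
          omega
      rw [h9]
      exact .conj h4 (ih (len c) (by omega) c rfl h8) h8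
  exact key _ e rfl he

/-! ## The relation -/

/-- The relation `R` tilde. -/
def RT {S : Type*} [Monoid S] (a b : S) : Prop := ∀ e : S, e * e = e → (e * a = a ↔ e * b = b)

theorem RT.symm {S : Type*} [Monoid S] {a b : S} (h : RT a b) : RT b a :=
  fun e he => (h e he).symm

theorem RT.head {a b : GProd Γ M} (h : RT a b) (β : V) : RT (hd β a) (hd β b) := by
  have key : ∀ (c : GProd Γ M) (k : M β), k * hd β c = hd β c ↔ inj Γ β k * c = c := by
    intro c k
    constructor
    · intro h1
      conv_lhs => rw [← hd_tl β c]
      rw [← mul_assoc, ← inj_mul, h1, hd_tl]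
    · intro h1
      rw [← hd_inj, h1]
  intro k hk
  rw [key, key]
  exact h _ (by rw [← inj_mul, hk])

theorem RT.peel {S : Type*} [Monoid S] {a b x y : S} (h : RT a b) (hxy : x * y = 1)
    (ha : y * (x * a) = a) : RT (x * a) (x * b) ∧ y * (x * b) = b := by
  have key : ∀ {a b : S}, RT a b → y * (x * a) = a → y * (x * b) = b := by
    intro a b h ha
    have h1 : y * x * (y * x) = y * x := by
      rw [mul_assoc, ← mul_assoc x, hxy, one_mul]
    rw [← mul_assoc] at ha ⊢
    exact (h _ h1).1 ha
  have hb := key h ha
  have key2 : ∀ {a b : S}, RT a b → y * (x * a) = a → ∀ k : S, k * k = k →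
      k * (x * a) = x * a → k * (x * b) = x * b := by
    intro a b h ha k hk h1
    have h2 : y * k * x * (y * k * x) = y * k * x := by
      calc y * k * x * (y * k * x) = y * k * (x * y) * k * x := by simp only [mul_assoc]
        _ = y * (k * k) * x := by rw [hxy, mul_one, mul_assoc y]
        _ = y * k * x := by rw [hk]
    have h3 : y * k * x * a = a := by
      calc y * k * x * a = y * (k * (x * a)) := by simp only [mul_assoc]
        _ = a := by rw [h1, ha]
    have h4 := (h _ h2).1 h3
    calc k * (x * b) = (x * y) * (k * (x * b)) := by rw [hxy, one_mul]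
      _ = x * (y * k * x * b) := by simp only [mul_assoc]
      _ = x * b := by rw [h4]
  exact ⟨fun k hk => ⟨key2 h ha k hk, key2 h.symm hb k hk⟩, hb⟩

/-- Idempotent letters. -/
theorem letters (hM : ∀ v (a b c : M v), RT a b → RT (c * a) (c * b)) {β : V} {k : M β}
    (hk : k * k = k) (c : GProd Γ M) : ∀ a b : GProd Γ M, RT a b →
      inj Γ β k * (c * a) = c * a → inj Γ β k * (c * b) = c * b := by
  have key : ∀ (n : ℕ) (c : GProd Γ M), len c = n → ∀ a b : GProd Γ M, RT a b →
      inj Γ β k * (c * a) = c * a → inj Γ β k * (c * b) = c * b := by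
    intro n
    induction n using Nat.strong_induction_on with
    | _ n ih =>
    intro c hn a b hab h1
    by_cases hnc : NC c a
    · have h2 := congrArg (hd β) h1
      rw [hd_inj] at h2
      rcases dich c a hnc β with h3 | ⟨s, d, hd, h3⟩
      · rw [h3] at h2
        have h4 : inj Γ β k * c = c := by
          conv_lhs => rw [← hd_tl β c]
          rw [← mul_assoc, ← inj_mul, h2, hd_tl]
        rw [← mul_assoc, h4]
      · rw [h3, mul_assoc, hd_inj, hd.hd] at h2
        have h4 := hM β _ _ s (hab.head β)
        have h5 := (h4 k hk).1 h2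
        have h6 : c * b = inj Γ β (s * GPM.hd β b) * (d * tl β b) := by
          conv_lhs => rw [← hd_tl β b]
          rw [h3, mul_assoc, ← mul_assoc d, ← hd.comm, inj_mul, mul_assoc, mul_assoc]
        rw [h6, ← mul_assoc, ← inj_mul, h5]
    · unfold NC at hnc
      push Not at hnc
      obtain ⟨γ, x, c', h2, h3, h4⟩ := hnc
      set y := hd γ a with hy
      have h5 : inj Γ γ x * inj Γ γ y = (1 : GProd Γ M) := by rw [← inj_mul, h4, inj_one]
      have h6 : inj Γ γ y * (inj Γ γ x * a) = a := by
        conv_lhs => rw [← hd_tl γ a]
        rw [← hy, ← mul_assoc (inj Γ γ x), h5, one_mul, hy, hd_tl]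
      obtain ⟨h7, h8⟩ := hab.peel h5 h6
      rw [h2, mul_assoc] at h1 ⊢
      exact ih (len c') (by omega) c' rfl _ _ h7 h1
  exact key _ c rfl

/-- The main theorem. -/
theorem leftCong (hM : ∀ v (a b c : M v), RT a b → RT (c * a) (c * b)) (a b c : GProd Γ M)
    (h : RT a b) : RT (c * a) (c * b) := by
  have key : ∀ e : GProd Γ M, Nest e → ∀ a b c : GProd Γ M, RT a b →
      e * (c * a) = c * a → e * (c * b) = c * b := by
    intro e he
    induction he with
    | one => intro a b c _ _; rw [one_mul]
    | @letter β y d hy _ hdd hcomm ih =>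
      intro a b c hab h1
      have h2 : inj Γ β y * (c * a) = c * a := by
        calc inj Γ β y * (c * a) = inj Γ β y * (inj Γ β y * d * (c * a)) := by rw [h1]
          _ = inj Γ β y * inj Γ β y * (d * (c * a)) := by simp only [mul_assoc]
          _ = inj Γ β y * d * (c * a) := by rw [← inj_mul, hy, mul_assoc]
          _ = c * a := h1
      have h3 : d * (c * a) = c * a := by
        calc d * (c * a) = d * (inj Γ β y * d * (c * a)) := by rw [h1]
          _ = d * inj Γ β y * d * (c * a) := by simp only [mul_assoc]
          _ = inj Γ β y * (d * d) * (c * a) := by rw [← hcomm, mul_assoc (inj Γ β y)]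
          _ = inj Γ β y * d * (c * a) := by rw [hdd]
          _ = c * a := h1
      rw [mul_assoc, ih a b c hab h3]
      exact letters hM hy c a b hab h2
    | @conj β x y d hxy _ hdd ih =>
      intro a b c hab h1
      have h5 : inj Γ β x * inj Γ β y = (1 : GProd Γ M) := by rw [← inj_mul, hxy, inj_one]
      have h2 : d * (inj Γ β x * c * a) = inj Γ β x * c * a := by
        calc d * (inj Γ β x * c * a)
            = (inj Γ β x * inj Γ β y) * d * (inj Γ β x * c * a) := by rw [h5, one_mul]
          _ = inj Γ β x * (inj Γ β y * d * inj Γ β x * (c * a)) := by simp only [mul_assoc]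
          _ = inj Γ β x * c * a := by rw [h1, mul_assoc]
      have h3 : inj Γ β (y * x) * (c * a) = c * a := by
        calc inj Γ β (y * x) * (c * a)
            = inj Γ β (y * x) * (inj Γ β y * d * inj Γ β x * (c * a)) := by rw [h1]
          _ = inj Γ β y * (inj Γ β x * inj Γ β y) * d * inj Γ β x * (c * a) := by
              rw [inj_mul]; simp only [mul_assoc]
          _ = inj Γ β y * d * inj Γ β x * (c * a) := by rw [h5, mul_one]
          _ = c * a := h1
      have h4 := ih a b (inj Γ β x * c) hab h2
      have h6 : y * x * (y * x) = y * x := by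
        rw [mul_assoc, ← mul_assoc x, hxy, one_mul]
      have h7 := letters hM h6 c a b hab h3
      calc inj Γ β y * d * inj Γ β x * (c * b)
          = inj Γ β y * (d * (inj Γ β x * c * b)) := by simp only [mul_assoc]
        _ = inj Γ β y * (inj Γ β x * c * b) := by rw [h4]
        _ = inj Γ β (y * x) * (c * b) := by rw [inj_mul]; simp only [mul_assoc]
        _ = c * b := h7
  exact fun e he => ⟨key e (nest e he) a b c h, key e (nest e he) b a c h.symm⟩

end Pool.Agent.Q175.GPM
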